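import Pool.Agent.H917R2.Tr.Stubs
import Pool.Agent.H228R2.Kad5.Sep
import Pool.Agent.H196R2.Kad5.C1

/-!
Vector functionals are normal in the sense of `H759R2.Kad`.
-/

open scoped ComplexOrder InnerProductSpace Topology
open Filter

noncomputable section

namespace H917R2.Tr

open H759R2.Kad H710R2.DP

namespace NnrmAux

variable {H : Type} [NormedAddCommGroup H] [InnerProductSpace ℂ H]

lemma norm_term_le (x : H →L[ℂ] H) (ξ : H) : ‖⟪ξ, x ξ⟫_ℂ‖ ≤ ‖x‖ * ‖ξ‖ ^ 2 := by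
  calc ‖⟪ξ, x ξ⟫_ℂ‖ ≤ ‖ξ‖ * ‖x ξ‖ := norm_inner_le_norm _ _
    _ ≤ ‖ξ‖ * (‖x‖ * ‖ξ‖) := by gcongr; exact x.le_opNorm ξ
    _ = _ := by ring

lemma summ_vf {ξ : ℕ → H} (hξ : Sq ξ) (x : H →L[ℂ] H) : Summable fun k => ⟪ξ k, x (ξ k)⟫_ℂ :=
  Summable.of_norm_bounded (hξ.mul_left ‖x‖) fun k => norm_term_le x (ξ k)

lemma summ_mu {ξ : ℕ → H} (hξ : Sq ξ) (x : H →L[ℂ] H) : Summable fun k => ‖x (ξ k)‖ ^ 2 := by
  refine Summable.of_nonneg_of_le (fun k => by positivity) (fun k => ?_) (hξ.mul_left (‖x‖ ^ 2))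
  rw [← mul_pow]
  exact pow_le_pow_left₀ (norm_nonneg _) (x.le_opNorm _) 2

lemma sq_star {ξ : ℕ → H} (hξ : Sq ξ) (x : H →L[ℂ] H) : Sq fun k => x (ξ k) := summ_mu hξ x

variable [CompleteSpace H]

lemma vf_sq (ξ : ℕ → H) (x : H →L[ℂ] H) : vf ξ (star x * x) = (mu ξ x : ℂ) := by
  unfold vf mu
  rw [Complex.ofReal_tsum]
  apply tsum_congr
  intro k
  rw [ContinuousLinearMap.mul_apply, ContinuousLinearMap.star_eq_adjoint,
    ContinuousLinearMap.adjoint_inner_right, inner_self_eq_norm_sq_to_K]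
  norm_cast

/-- the functional -/
def fn (M : VonNeumannAlgebra H) {ξ : ℕ → H} (hξ : Sq ξ) : M.toStarSubalgebra →ₗ[ℂ] ℂ where
  toFun a := vf ξ (a : H →L[ℂ] H)
  map_add' a b := by
    change vf ξ ((a : H →L[ℂ] H) + (b : H →L[ℂ] H)) = _
    unfold vf
    rw [← (summ_vf hξ (a : H →L[ℂ] H)).tsum_add (summ_vf hξ (b : H →L[ℂ] H))]
    apply tsum_congr
    intro k
    rw [ContinuousLinearMap.add_apply, inner_add_right]
  map_smul' c a := by
    change vf ξ (c • (a : H →L[ℂ] H)) = c • vf ξ (a : H →L[ℂ] H)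
    unfold vf
    rw [smul_eq_mul, ← tsum_mul_left]
    apply tsum_congr
    intro k
    rw [ContinuousLinearMap.smul_apply, inner_smul_right]

lemma norm_le_one_of_pis {v : H →L[ℂ] H} (h : v * star v * v = v) : ‖v‖ ≤ 1 := by
  have h1 : star (star v * v) * (star v * v) = star v * v := by
    rw [star_mul, star_star]
    calc star v * v * (star v * v) = star v * (v * star v * v) := by simp only [mul_assoc]
      _ = star v * v := by rw [h]
  have h2 := CStarRing.norm_star_mul_self (x := star v * v)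
  have h3 := CStarRing.norm_star_mul_self (x := v)
  rw [h1] at h2
  by_contra hc
  push Not at hc
  have h4 : 1 < ‖star v * v‖ := by rw [h3]; nlinarith
  nlinarith

/-- the key estimate for one side -/
lemma key (y : ℕ → H) (hy : Sq y) (K : ℕ) (ε δ S : ℝ) (hδ : 0 ≤ δ) (V v : H →L[ℂ] H)
    (hV : ‖V‖ ≤ 1) (htail : ∑' k, ‖y (k + K)‖ ^ 2 ≤ ε / 2)
    (hS : ∑ k ∈ Finset.range K, ‖V (y k)‖ ≤ S) (hSδ : 2 * δ * S ≤ ε / 2)
    (hv : ∀ k < K, ‖V (y k) - v (y k)‖ ≤ δ) :
    mu y V - ε ≤ mu y v := by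
  have h1 : mu y V = ∑ k ∈ Finset.range K, ‖V (y k)‖ ^ 2 + ∑' k, ‖V (y (k + K))‖ ^ 2 :=
    ((summ_mu hy V).sum_add_tsum_nat_add K).symm
  have h2 : ∑' k, ‖V (y (k + K))‖ ^ 2 ≤ ε / 2 := by
    refine le_trans ?_ htail
    apply Summable.tsum_le_tsum
    · intro k
      have : ‖V (y (k + K))‖ ≤ ‖y (k + K)‖ := by
        calc ‖V (y (k + K))‖ ≤ ‖V‖ * ‖y (k + K)‖ := V.le_opNorm _
          _ ≤ 1 * ‖y (k + K)‖ := by gcongr
          _ = _ := one_mul _
      exact pow_le_pow_left₀ (norm_nonneg _) this 2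
    · exact (summable_nat_add_iff K).2 (summ_mu hy V)
    · exact (summable_nat_add_iff K).2 hy
  have h3 : ∑ k ∈ Finset.range K, (‖V (y k)‖ ^ 2 - 2 * δ * ‖V (y k)‖) ≤
      ∑ k ∈ Finset.range K, ‖v (y k)‖ ^ 2 := by
    apply Finset.sum_le_sum
    intro k hk
    have h4 : ‖V (y k)‖ ≤ ‖v (y k)‖ + δ := by
      have := norm_le_norm_add_norm_sub' (V (y k)) (v (y k))
      have := hv k (Finset.mem_range.1 hk)
      linarith
    exact H228sep.sq_bd (norm_nonneg _) (norm_nonneg _) hδ h4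
  have h5 : ∑ k ∈ Finset.range K, ‖v (y k)‖ ^ 2 ≤ mu y v :=
    (summ_mu hy v).sum_le_tsum _ fun k _ => by positivity
  rw [Finset.sum_sub_distrib, ← Finset.mul_sum] at h3
  have h6 : 2 * δ * ∑ k ∈ Finset.range K, ‖V (y k)‖ ≤ 2 * δ * S := by gcongr
  linarith

end NnrmAux

open NnrmAux

theorem p_N_nrm_of (h : C_chain.{0}) : N_nrm := by
  intro H _ _ _ M ξ hξ
  have hsq : ∀ x : M.toStarSubalgebra, fn M hξ (star x * x) = (mu ξ (x : H →L[ℂ] H) : ℂ) :=
    fun x => vf_sq ξ (x : H →L[ℂ] H)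
  refine ⟨fn M hξ, ⟨fun a => ?_, ?_⟩, fun x => rfl, hsq⟩
  · rw [hsq]
    exact Complex.zero_le_real.2 (tsum_nonneg fun k => by positivity)
  · intro w C V hC hV ε hε
    set y : ℕ → H := fun k => star (w : H →L[ℂ] H) (ξ k) with hy
    have hyS : Sq y := sq_star hξ _
    have hmu : ∀ u : M.toStarSubalgebra, fn M hξ (w * (star u * u) * star w) =
        (mu y (u : H →L[ℂ] H) : ℂ) := by
      intro u
      have e : w * (star u * u) * star w = star (u * star w) * (u * star w) := by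
        rw [star_mul, star_star]; simp only [mul_assoc]
      rw [e, hsq]
      rfl
    have hpi : ∀ u : M.toStarSubalgebra, PIs u → ‖(u : H →L[ℂ] H)‖ ≤ 1 := by
      intro u hu
      apply norm_le_one_of_pis
      exact congrArg (fun a : M.toStarSubalgebra => (a : H →L[ℂ] H)) hu
    have hV1 := hpi V hV.pi
    have hV2 : ‖star (V : H →L[ℂ] H)‖ ≤ 1 := by rw [norm_star]; exact hV1
    -- the tail
    have htend := tendsto_sum_nat_add (fun k => ‖y k‖ ^ 2)
    obtain ⟨K, hK⟩ := (htend.eventually (ge_mem_nhds (show (0 : ℝ) < ε / 2 by positivity))).exists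
    set S : ℝ := ∑ k ∈ Finset.range K, (‖(V : H →L[ℂ] H) (y k)‖ + ‖star (V : H →L[ℂ] H) (y k)‖) with hS
    have hS0 : 0 ≤ S := Finset.sum_nonneg fun k _ => by positivity
    set δ := ε / (4 * (S + 1)) with hδ
    have hδ0 : 0 < δ := by positivity
    have hδe : 2 * δ * S ≤ ε / 2 := by
      have : 4 * δ * (S + 1) = ε := by rw [hδ]; field_simp
      nlinarith
    obtain ⟨v, hvC, hv⟩ := (h H M C hC).2 V hV K (fun i => y i) δ hδ0
    refine ⟨v, hvC, ?_, ?_⟩
    · rw [hmu, hmu, Complex.ofReal_re, Complex.ofReal_re]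
      exact key y hyS K ε δ S hδ0.le _ _ hV1 hK
        (Finset.sum_le_sum fun k _ => le_add_of_nonneg_right (norm_nonneg _)) hδe
        (fun k hk => (hv ⟨k, hk⟩).1)
    · have e1 : w * (V * star V) * star w = w * (star (star V) * star V) * star w := by
        rw [star_star]
      have e2 : w * (v * star v) * star w = w * (star (star v) * star v) * star w := by
        rw [star_star]
      rw [e1, e2, hmu, hmu, Complex.ofReal_re, Complex.ofReal_re]
      exact key y hyS K ε δ S hδ0.le _ _ hV2 hK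
        (Finset.sum_le_sum fun k _ => le_add_of_nonneg_left (norm_nonneg _)) hδe
        (fun k hk => (hv ⟨k, hk⟩).2)

theorem p_N_nrm : N_nrm := p_N_nrm_of prove6_chain_all

end H917R2.Tr
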